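import Mathlib

/-!
# Monochromatic transfinite paths under countably many colours

For an infinite cardinal `κ`, `PathCardinal κ` says that every colouring of the pairs of a set of
size `κ` with countably many colours has a monochromatic path of size `κ`. We prove that every
singular strong limit cardinal `κ` of cofinality at least `ℵ₂` has this property; in particular
`ℶ_(ω₂)` has it.

Proof. Let `μ` be the cofinality of `κ`. Two applications of the pigeonhole principle give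
disjoint blocks `X x`, `x < μ`, with sizes cofinal in `κ`, such that the colour between `X x` and
`X y`, `x < y`, only depends on `x` and `y`; call it `d x y`. Since `μ ≥ ℵ₂` there are a block `z`
and a colour `j` such that for cofinally many `x` there is `b` with `d z b = d x b = j`: otherwise
one finds an increasing sequence of length `ω₁` and some `b` above it such that `d · b` is
injective on the sequence. The path runs through longer and longer complete bipartite pieces
between `X x` and `X b`; the beginnings of the pieces are vertices of the block `X z`.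
-/

set_option autoImplicit false
open Cardinal Set

universe u

namespace Pool.Agent.Results.MP_ebc4cb_lc.StrongLimit

/-- A graph `P` is a path (in the transfinite sense) if there is a well-ordering `r` of its vertex
set such that for every vertex `v` the set of those neighbours of `v` that precede `v` is cofinal in
the set of predecessors of `v`. -/
def IsTransfinitePath {V : Type u} (P : SimpleGraph V) : Prop :=
  ∃ r : V → V → Prop, IsWellOrder V r ∧
    ∀ v u : V, r u v → ∃ w : V, P.Adj v w ∧ r w v ∧ ¬ r w u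

/-- The graph formed by the edges of colour `i`. -/
def colourGraph {V : Type u} (c : Sym2 V → ℕ) (i : ℕ) : SimpleGraph V where
  Adj x y := x ≠ y ∧ c s(x, y) = i
  symm := ⟨fun x y h => ⟨h.1.symm, by rw [Sym2.eq_swap]; exact h.2⟩⟩
  loopless := ⟨fun _ h => h.1 rfl⟩

theorem exists_path {V : Type u} (G : SimpleGraph V) {J : Type u} [LinearOrder J]
    [WellFoundedLT J] (p : J → V) (hp : Function.Injective p)
    (h : ∀ a b : J, a < b → ∃ w, a ≤ w ∧ w < b ∧ G.Adj (p b) (p w)) :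
    ∃ P : G.Subgraph, IsTransfinitePath P.coe ∧ #P.verts = #J := by
  let P : G.Subgraph := (⊤ : G.Subgraph).induce (range p)
  let e : J ≃ range p := Equiv.ofInjective p hp
  have he : ∀ j, ((e j : range p) : V) = p j := fun j => rfl
  refine ⟨P, ?_, ?_⟩
  · refine ⟨fun x y => e.symm x < e.symm y, ?_, ?_⟩
    · exact (RelEmbedding.isWellOrder
        (⟨e.symm.toEmbedding, Iff.rfl⟩ : (fun x y : range p => e.symm x < e.symm y) ↪r
          (fun x y : J => x < y)))
    · intro v u huv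
      obtain ⟨w, h1, h2, h3⟩ := h _ _ huv
      refine ⟨e w, ?_, ?_, ?_⟩
      · have hv : ∀ x : range p, (x : V) = p (e.symm x) := by
          intro x
          rw [← he, Equiv.apply_symm_apply]
        have hv2 : (v : V) = p (e.symm v) := hv v
        change P.Adj (v : V) (e w : V)
        have h6 : G.Adj (v : V) (e w : V) := by
          rw [hv2]; exact h3
        simp only [P, SimpleGraph.Subgraph.induce_adj, SimpleGraph.Subgraph.top_adj]
        exact ⟨v.2, (e w).2, h6⟩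
      · simpa using h2
      · simpa using h1
  · change #(range p) = #J
    exact Cardinal.mk_range_eq p hp

theorem exists_good {I : Type u} [LinearOrder I] [WellFoundedLT I]
    (hI : ∀ S : Set I, #S ≤ ℵ₁ → ∃ b, ∀ s ∈ S, s < b) (d : I → I → ℕ) :
    ∃ (z : I) (j : ℕ), ∀ n : I, ∃ z' b : I, n ≤ z' ∧ z' < b ∧ z < b ∧ d z b = j ∧ d z' b = j := by
  by_contra hcon
  push Not at hcon
  choose B hB using hcon
  -- a common bound for all colours
  have h1 : ∀ z : I, ∃ b : I, ∀ j, B z j < b := by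
    intro z
    obtain ⟨b, hb⟩ := hI (range (B z))
      ((Cardinal.le_aleph0_iff_set_countable.mpr (countable_range _)).trans
      aleph0_lt_aleph_one.le)
    exact ⟨b, fun j => hb _ ⟨j, rfl⟩⟩
  choose C hC using h1
  -- the sequence
  let W : Type u := (ℵ₁ : Cardinal.{u}).ord.ToType
  have hW : #W = ℵ₁ := mk_ord_toType _
  have hub : ∀ (ν : W) (g : ∀ ν' : W, ν' < ν → I), ∃ b : I, ∀ ν' (h : ν' < ν), C (g ν' h) < b ∧
      g ν' h < b := by
    intro ν g
    let S : Set I := range (fun x : {ν' : W // ν' < ν} => C (g x.1 x.2)) ∪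
      range (fun x : {ν' : W // ν' < ν} => g x.1 x.2)
    have hS : #S ≤ ℵ₁ := by
      have h2 : #{ν' : W // ν' < ν} ≤ ℵ₁ := (mk_subtype_le _).trans hW.le
      refine (mk_union_le _ _).trans ?_
      refine (add_le_add (mk_range_le.trans h2) (mk_range_le.trans h2)).trans ?_
      rw [add_eq_self aleph0_lt_aleph_one.le]
    obtain ⟨b, hb⟩ := hI S hS
    exact ⟨b, fun ν' h => ⟨hb _ (Or.inl ⟨⟨ν', h⟩, rfl⟩), hb _ (Or.inr ⟨⟨ν', h⟩, rfl⟩)⟩⟩
  choose U hU using hub
  let s : W → I := wellFounded_lt.fix (C := fun _ => I) U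
  have hs : ∀ ν, s ν = U ν (fun ν' _ => s ν') := fun ν => wellFounded_lt.fix_eq _ ν
  have hs1 : ∀ ν' ν, ν' < ν → C (s ν') < s ν ∧ s ν' < s ν := by
    intro ν' ν hν
    have h2 := hU ν (fun ν' _ => s ν') ν' hν
    rw [← hs ν] at h2
    exact h2
  obtain ⟨b, hb⟩ := hI (range s) (mk_range_le.trans hW.le)
  have hinj : Function.Injective (fun ν : W => d (s ν) b) := by
    have key : ∀ ν' ν, ν' < ν → d (s ν') b ≠ d (s ν) b := by
      intro ν' ν hν heq
      refine hB (s ν') (d (s ν') b) (s ν) b ?_ (hb _ ⟨ν, rfl⟩) (hb _ ⟨ν', rfl⟩) rfl heq.symm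
      exact ((hC _ _).trans (hs1 ν' ν hν).1).le
    intro x y hxy
    rcases lt_trichotomy x y with h | h | h
    · exact absurd hxy (key _ _ h)
    · exact h
    · exact absurd hxy.symm (key _ _ h)
  have h3 : #W ≤ ℵ₀ := by
    have h4 := Cardinal.mk_le_of_injective (α := W) (β := ULift.{u} ℕ)
      (f := fun ν : W => ULift.up (d (s ν) b)) (fun x y hxy => hinj (ULift.up_injective hxy))
    simpa using h4
  rw [hW] at h3
  exact absurd h3 (not_le.mpr aleph0_lt_aleph_one)

theorem sum_lt {κ : Cardinal.{u}} (hκ : ℵ₀ ≤ κ) {ι : Type u} (f : ι → Cardinal.{u})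
    (hι : #ι < κ.ord.cof) (hf : ∀ i, f i < κ) : Cardinal.sum f < κ := by
  refine (Cardinal.sum_le_mk_mul_iSup f).trans_lt ?_
  exact mul_lt_of_lt hκ (hι.trans_le (Ordinal.cof_ord_le κ)) (iSup_lt_of_lt_cof_ord hι hf)

/-- the sequence of cardinals -/
theorem exists_cardinals {κ : Cardinal.{u}} (hκ : κ.IsStrongLimit)
    (hμ0 : ℵ₀ ≤ κ.ord.cof) (hμ : κ.ord.cof < κ)
    (I : Type u) [LinearOrder I] [WellFoundedLT I]
    (hI2 : ∀ x : I, #(Iio x) < κ.ord.cof) (f : I → Cardinal.{u}) (hf : ∀ x, f x < κ) :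
    ∃ ν : I → Cardinal.{u}, (∀ x, f x ≤ ν x) ∧ (∀ x, ν x < κ) ∧
      (∀ x, ℵ₀ ^ κ.ord.cof ≤ ν x) ∧
      (∀ x, ℵ₀ ^ (Cardinal.sum (fun y : Iio x => Order.succ (ν y))) ≤ ν x) := by
  have hκ0 : ℵ₀ ≤ κ := hκ.aleph0_le
  let F : (x : I) → ((y : I) → y < x → Cardinal.{u}) → Cardinal.{u} := fun x g =>
    2 ^ (max (f x) (max κ.ord.cof (Cardinal.sum (fun y : Iio x => Order.succ (g y.1 y.2)))))
  let ν : I → Cardinal.{u} := wellFounded_lt.fix (C := fun _ => Cardinal.{u}) F
  have hν : ∀ x, ν x = 2 ^ (max (f x) (max κ.ord.cof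
      (Cardinal.sum (fun y : Iio x => Order.succ (ν y))))) := fun x => wellFounded_lt.fix_eq _ x
  have hm : ∀ x, ℵ₀ ≤ max (f x) (max κ.ord.cof
      (Cardinal.sum (fun y : Iio x => Order.succ (ν y)))) := fun x =>
    hμ0.trans ((le_max_left _ _).trans (le_max_right _ _))
  have hpow : ∀ x, ℵ₀ ^ (max (f x) (max κ.ord.cof
      (Cardinal.sum (fun y : Iio x => Order.succ (ν y))))) = ν x := by
    intro x
    rw [hν x]
    exact power_eq_two_power (hm x) (ofNat_lt_aleph0 (n := 2)).le (hm x)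
  refine ⟨ν, ?_, ?_, ?_, ?_⟩
  · intro x
    rw [hν x]
    exact (le_max_left _ _).trans (cantor _).le
  · intro x
    refine wellFounded_lt.induction (C := fun x => ν x < κ) x (fun x ih => ?_)
    rw [hν x]
    apply hκ.isStrongPrelimit
    refine max_lt (hf x) (max_lt hμ ?_)
    exact sum_lt hκ0 _ (hI2 x) (fun y => hκ.isSuccLimit.succ_lt (ih y.1 y.2))
  · intro x
    rw [← hpow x]
    exact power_le_power_left aleph0_ne_zero ((le_max_left _ _).trans (le_max_right _ _))
  · intro x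
    conv_rhs => rw [← hpow x]
    exact power_le_power_left aleph0_ne_zero ((le_max_right _ _).trans (le_max_right _ _))

/-- pigeonhole principle -/
theorem pigeon {β α : Type u} (f : β → α) (ν : Cardinal.{u}) (hν : ℵ₀ ≤ ν)
    (hα : #α ≤ ν) (hβ : Order.succ ν ≤ #β) : ∃ a : α, Order.succ ν ≤ #(f ⁻¹' {a}) := by
  have hreg := isRegular_succ hν
  refine infinite_pigeonhole_card f (Order.succ ν) hβ hreg.aleph0_le ?_
  rw [hreg.cof_ord]
  exact Order.lt_succ_iff.mpr hα

/-- canonical form of a colouring on a singular strong limit cardinal -/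
theorem exists_canonical {κ : Cardinal.{u}} (hκ : κ.IsStrongLimit)
    (hμ0 : ℵ₀ ≤ κ.ord.cof) (hμ : κ.ord.cof < κ)
    (I : Type u) [LinearOrder I] [WellFoundedLT I] (hI : #I = κ.ord.cof)
    (hI2 : ∀ x : I, #(Iio x) < κ.ord.cof) (f : I → Cardinal.{u}) (hf : ∀ x, f x < κ)
    (hf2 : ∀ θ < κ, ∃ x, θ ≤ f x)
    (V : Type u) (hV : #V = κ) (c : Sym2 V → ℕ) :
    ∃ (l : I → Cardinal.{u}) (X : I → Set V) (d : I → I → ℕ),
      (∀ x y, x ≤ y → l x ≤ l y) ∧ (∀ x, κ.ord.cof ≤ l x) ∧ (∀ x, l x < κ) ∧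
      (∀ θ < κ, ∃ x, θ < l x) ∧ (∀ x, l x ≤ #(X x)) ∧
      (∀ x y v, v ∈ X x → v ∈ X y → x = y) ∧
      (∀ x y, x < y → ∀ v ∈ X x, ∀ w ∈ X y, c s(v, w) = d x y) := by
  have hκ0 : ℵ₀ ≤ κ := hκ.aleph0_le
  obtain ⟨ν, hν1, hν2, hν3, hν4⟩ := exists_cardinals hκ hμ0 hμ I hI2 f hf
  have hμν : ∀ x, κ.ord.cof ≤ ν x := fun x =>
    (cantor _).le.trans ((power_le_power_right (ofNat_lt_aleph0 (n := 2)).le).trans (hν3 x))
  have hν0 : ∀ x, ℵ₀ ≤ ν x := fun x => hμ0.trans (hμν x)
  let l : I → Cardinal.{u} := fun x => Order.succ (ν x)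
  have hl : ∀ x, l x < κ := fun x => hκ.isSuccLimit.succ_lt (hν2 x)
  have hlmono : ∀ x y, x < y → l x ≤ ν y := by
    intro x y hxy
    have h1 : l x ≤ Cardinal.sum (fun y' : Iio y => Order.succ (ν y')) :=
      le_sum (fun y' : Iio y => Order.succ (ν y')) ⟨x, hxy⟩
    have h2 : Cardinal.sum (fun y' : Iio y => Order.succ (ν y')) ≤
        ℵ₀ ^ (Cardinal.sum (fun y' : Iio y => Order.succ (ν y'))) :=
      (cantor _).le.trans (power_le_power_right (ofNat_lt_aleph0 (n := 2)).le)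
    exact h1.trans (h2.trans (hν4 y))
  -- the vertex set is split into blocks
  have hsum : Cardinal.sum l = κ := by
    apply le_antisymm
    · refine (Cardinal.sum_le_mk_mul_iSup l).trans ?_
      have h1 : iSup l ≤ κ := ciSup_le' (fun x => (hl x).le)
      rw [hI]
      exact (mul_le_mul' hμ.le h1).trans (mul_eq_self hκ0).le
    · apply le_of_forall_lt
      intro θ hθ
      obtain ⟨x, hx⟩ := hf2 θ hθ
      exact (hx.trans (hν1 x)).trans_lt ((Order.lt_succ _).trans_le (le_sum l x))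
  have hequiv : #V = #(Σ x : I, (l x).out) := by
    rw [mk_sigma, hV, ← hsum]
    simp
  obtain ⟨e⟩ := Cardinal.eq.mp hequiv
  -- first pigeonhole
  have h1 : ∀ y : I, ∃ g : (Σ x : Iio y, (l x).out) → ℕ,
      Order.succ (ν y) ≤ #((fun (w : (l y).out) (a : Σ x : Iio y, (l x).out) =>
        c s(e.symm ⟨a.1, a.2⟩, e.symm ⟨y, w⟩)) ⁻¹' {g}) := by
    intro y
    apply pigeon _ (ν y) (hν0 y)
    · have h2 : #((Σ x : Iio y, (l x).out) → ℕ) = ℵ₀ ^ #(Σ x : Iio y, (l x).out) := by
        simp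
      rw [h2, mk_sigma]
      simpa using hν4 y
    · simp [l]
  choose g hg using h1
  let Y : (y : I) → Set (l y).out := fun y => (fun (w : (l y).out)
    (a : Σ x : Iio y, (l x).out) => c s(e.symm ⟨a.1, a.2⟩, e.symm ⟨y, w⟩)) ⁻¹' {g y}
  -- second pigeonhole
  have h2 : ∀ x : I, ∃ d : (Ioi x → ℕ), Order.succ (ν x) ≤ #((fun (v : Y x) (y : Ioi x) =>
      g y ⟨⟨x, y.2⟩, v.1⟩) ⁻¹' {d}) := by
    intro x
    apply pigeon _ (ν x) (hν0 x)
    · have h3 : #(Ioi x → ℕ) = ℵ₀ ^ #(Ioi x) := by simp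
      rw [h3]
      refine le_trans ?_ (hν3 x)
      refine power_le_power_left aleph0_ne_zero ?_
      rw [← hI]
      exact mk_subtype_le _
    · exact hg x
  choose d hd using h2
  let Z : (x : I) → Set (Y x) := fun x => (fun (v : Y x) (y : Ioi x) =>
      g y ⟨⟨x, y.2⟩, v.1⟩) ⁻¹' {d x}
  let X : I → Set V := fun x => {v | ∃ z : Y x, z ∈ Z x ∧ e v = ⟨x, z.1⟩}
  classical
  let d' : I → I → ℕ := fun x y => if h : y ∈ Ioi x then d x ⟨y, h⟩ else 0
  have hd' : ∀ x y (h : x < y), d' x y = d x ⟨y, h⟩ := fun x y h => dif_pos h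
  refine ⟨l, X, d', ?_, ?_, hl, ?_, ?_, ?_, ?_⟩
  · intro x y hxy
    rcases hxy.eq_or_lt with h | h
    · rw [h]
    · exact (hlmono x y h).trans (Order.le_succ _)
  · intro x
    exact (hμν x).trans (Order.le_succ _)
  · intro θ hθ
    obtain ⟨x, hx⟩ := hf2 θ hθ
    exact ⟨x, (hx.trans (hν1 x)).trans_lt (Order.lt_succ _)⟩
  · intro x
    refine (hd x).trans ?_
    change #(Z x) ≤ #(X x)
    refine mk_le_of_injective (f := fun z : Z x => (⟨e.symm ⟨x, z.1.1⟩, z.1, z.2, by simp⟩ : X x)) ?_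
    intro a b hab
    have h3 := congrArg Subtype.val hab
    simp only [EmbeddingLike.apply_eq_iff_eq] at h3
    have h4 := eq_of_heq (Sigma.mk.inj h3).2
    exact Subtype.ext (Subtype.ext h4)
  · rintro x y v ⟨z, -, hz⟩ ⟨z', -, hz'⟩
    rw [hz] at hz'
    exact congrArg Sigma.fst hz'
  · intro x y hxy v hv w hw
    obtain ⟨z, hz, hzv⟩ := hv
    obtain ⟨z', hz', hzw⟩ := hw
    rw [hd' x y hxy]
    have h3 : v = e.symm ⟨x, z.1⟩ := by rw [← hzv]; simp
    have h4 : w = e.symm ⟨y, z'.1⟩ := by rw [← hzw]; simp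
    have h5 : (fun (a : Σ x : Iio y, (l x).out) =>
      c s(e.symm ⟨a.1, a.2⟩, e.symm ⟨y, z'.1⟩)) = g y := z'.2
    have h6 : (fun (y : Ioi x) => g y ⟨⟨x, y.2⟩, z.1⟩) = d x := hz
    rw [h3, h4, ← congrFun h6 ⟨y, hxy⟩]
    exact congrFun h5 ⟨⟨x, hxy⟩, z.1⟩

theorem exists_initial (κ : Cardinal.{u}) :
    ∃ k : {θ : Cardinal.{u} // θ < κ} → κ.ord.ToType, (∀ θ, #(Iio (k θ)) = θ.1) ∧
      ∀ θ θ', θ.1 ≤ θ'.1 → k θ ≤ k θ' := by
  have h1 : ∀ θ : {θ : Cardinal.{u} // θ < κ},
      θ.1.ord < Ordinal.type (α := κ.ord.ToType) (· < ·) := by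
    intro θ
    rw [Ordinal.type_toType]; exact ord_lt_ord.2 θ.2
  refine ⟨fun θ => Ordinal.enum (α := κ.ord.ToType) (· < ·) ⟨θ.1.ord, h1 θ⟩, ?_, ?_⟩
  · intro θ
    have h2 := Ordinal.card_typein (r := ((· < ·) : κ.ord.ToType → κ.ord.ToType → Prop))
      (Ordinal.enum (α := κ.ord.ToType) (· < ·) ⟨θ.1.ord, h1 θ⟩)
    rw [Ordinal.typein_enum, card_ord] at h2
    exact h2.symm
  · intro θ θ' hθ
    rw [Ordinal.enum_le_enum']
    exact ord_le_ord.2 hθ

theorem path_of_canonical {κ : Cardinal.{u}} (hκ0 : ℵ₀ ≤ κ) (hμ0 : ℵ₀ ≤ κ.ord.cof)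
    (hμκ : κ.ord.cof < κ)
    (I : Type u) [LinearOrder I] [WellFoundedLT I] (hI : #I = κ.ord.cof)
    (V : Type u) (c : Sym2 V → ℕ)
    (l : I → Cardinal.{u}) (X : I → Set V) (d : I → I → ℕ)
    (hl1 : ∀ x y, x ≤ y → l x ≤ l y) (hl2 : ∀ x, κ.ord.cof ≤ l x) (hl3 : ∀ x, l x < κ)
    (hl4 : ∀ θ < κ, ∃ x, θ < l x) (hX1 : ∀ x, l x ≤ #(X x))
    (hX2 : ∀ x y v, v ∈ X x → v ∈ X y → x = y)
    (hX3 : ∀ x y, x < y → ∀ v ∈ X x, ∀ w ∈ X y, c s(v, w) = d x y)
    (z : I) (j : ℕ)
    (hz : ∀ n : I, ∃ z' b : I, n ≤ z' ∧ z' < b ∧ z < b ∧ d z b = j ∧ d z' b = j) :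
    ∃ P : (colourGraph c j).Subgraph, IsTransfinitePath P.coe ∧ #P.verts = κ := by
  choose z' β hz1 hz2 hz3 hz4 hz5 using hz
  let K : Type u := κ.ord.ToType
  have hK : #K = κ := mk_ord_toType κ
  obtain ⟨k', hk'1, hk'2⟩ := exists_initial κ
  let k : I → K := fun x => k' ⟨l x, hl3 x⟩
  have hk : ∀ x : I, #(Iio (k x)) = l x := fun x => hk'1 _
  have hkmono : ∀ x y, x ≤ y → k x ≤ k y := fun x y hxy => hk'2 _ _ (hl1 x y hxy)
  -- the least element of `K`
  have hKne : Nonempty K := by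
    rw [← mk_ne_zero_iff, hK]
    exact (aleph0_pos.trans_le hκ0).ne'
  let k0 : K := wellFounded_lt.min univ univ_nonempty
  have hk0 : ∀ x : K, k0 ≤ x := fun x => not_lt.mp (wellFounded_lt.not_lt_min univ (mem_univ x))
  have hk0' : ∀ x : I, k0 < k x := by
    intro x
    refine lt_of_le_of_ne (hk0 _) ?_
    intro h
    have h1 : Iio (k x) = ∅ := by
      rw [← h]
      ext y
      simp [hk0 y]
    have h2 := hk x
    rw [h1] at h2
    have h3 := (hμ0.trans (hl2 x))
    rw [← h2, mk_eq_zero (∅ : Set K)] at h3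
    exact absurd h3 (not_le.mpr aleph0_pos)
  -- the index set of the path
  let J : Type u := {q : I ×ₗ (K ×ₗ Bool) // (ofLex (ofLex q).2).1 < k (ofLex q).1}
  let mk : (ν : I) → (τ : K) → Bool → (τ < k ν) → J := fun ν τ b h => ⟨toLex (ν, toLex (τ, b)), h⟩
  have hform : ∀ q : J, ∃ ν τ b h, q = mk ν τ b h := fun q => ⟨_, _, _, q.2, rfl⟩
  have hlt : ∀ ν τ b h ν' τ' b' h', mk ν τ b h < mk ν' τ' b' h' ↔
      (ν < ν' ∨ (ν = ν' ∧ (τ < τ' ∨ (τ = τ' ∧ b < b')))) := by
    intro ν τ b h ν' τ' b' h'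
    change toLex (ν, toLex (τ, b)) < toLex (ν', toLex (τ', b')) ↔ _
    rw [Prod.Lex.toLex_lt_toLex, Prod.Lex.toLex_lt_toLex]
  have hle : ∀ ν τ b h ν' τ' b' h', mk ν τ b h ≤ mk ν' τ' b' h' ↔
      (ν < ν' ∨ (ν = ν' ∧ (τ < τ' ∨ (τ = τ' ∧ b ≤ b')))) := by
    intro ν τ b h ν' τ' b' h'
    change toLex (ν, toLex (τ, b)) ≤ toLex (ν', toLex (τ', b')) ↔ _
    rw [Prod.Lex.toLex_le_toLex, Prod.Lex.toLex_le_toLex]
  -- the blocks visited by the path
  classical
  let t : J → I := fun q => if (ofLex (ofLex q.1).2).2 = true then β (ofLex q.1).1 else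
    if (ofLex (ofLex q.1).2).1 = k0 then z else z' (ofLex q.1).1
  have ht1 : ∀ ν τ h, t (mk ν τ true h) = β ν := fun ν τ h => by simp [t, mk]
  have ht2 : ∀ ν h, t (mk ν k0 false h) = z := fun ν h => by simp [t, mk]
  have ht3 : ∀ ν τ h, τ ≠ k0 → t (mk ν τ false h) = z' ν := fun ν τ h hτ => by simp [t, mk, hτ]
  -- cardinality of the part of the path inside a block
  have hcard : ∀ x : I, #(t ⁻¹' {x}) ≤ #(X x) := by
    intro x
    refine le_trans ?_ (hX1 x)
    have hsub : t ⁻¹' {x} ⊆ range (fun ν : I => mk ν k0 false (hk0' ν)) ∪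
        {q : J | (ofLex q.1).1 ≤ x} := by
      intro q hq
      obtain ⟨ν, τ, b, h, rfl⟩ := hform q
      have hq' : t (mk ν τ b h) = x := hq
      cases b with
      | true =>
        right
        rw [ht1] at hq'
        change ν ≤ x
        rw [← hq']
        exact (hz1 ν).trans (hz2 ν).le
      | false =>
        by_cases hτ : τ = k0
        · left
          subst hτ
          exact ⟨ν, rfl⟩
        · right
          rw [ht3 ν τ h hτ] at hq'
          change ν ≤ x
          rw [← hq']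
          exact hz1 ν
    have hb1 : #(range (fun ν : I => mk ν k0 false (hk0' ν))) ≤ l x := by
      refine mk_range_le.trans ?_
      rw [hI]
      exact hl2 x
    have hb2 : #{q : J | (ofLex q.1).1 ≤ x} ≤ l x := by
      have h1 : #{q : J | (ofLex q.1).1 ≤ x} ≤ #(I × (Iio (k x)) × Bool) := by
        refine mk_le_of_injective (f := fun q => ((ofLex q.1.1).1,
          ⟨(ofLex (ofLex q.1.1).2).1, lt_of_lt_of_le q.1.2 (hkmono _ _ q.2)⟩,
          (ofLex (ofLex q.1.1).2).2)) ?_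
        intro a b hab
        simp only [Prod.mk.injEq] at hab
        apply Subtype.ext
        apply Subtype.ext
        apply ofLex.injective
        refine Prod.ext hab.1 ?_
        apply ofLex.injective
        exact Prod.ext (congrArg Subtype.val hab.2.1) hab.2.2
      refine h1.trans ?_
      have hl0 : ℵ₀ ≤ l x := hμ0.trans (hl2 x)
      rw [mk_prod, mk_prod]
      simp only [lift_id, lift_uzero, mk_fintype, Fintype.card_bool, hk x, hI]
      have h2 : l x * Cardinal.lift.{u} ((2 : ℕ) : Cardinal.{0}) ≤ l x := by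
        refine (mul_le_mul' le_rfl ?_).trans (mul_eq_self hl0).le
        simpa using (natCast_lt_aleph0 (n := 2)).le.trans hl0
      exact (mul_le_mul' (hl2 x) h2).trans (mul_eq_self hl0).le
    refine (mk_le_mk_of_subset hsub).trans ((mk_union_le _ _).trans ?_)
    exact (add_le_add hb1 hb2).trans (add_eq_self (hμ0.trans (hl2 x))).le
  -- choose the vertices
  have hinj : ∀ x : I, Nonempty (t ⁻¹' {x} ↪ X x) := fun x => hcard x
  have ι : ∀ x : I, (t ⁻¹' {x} ↪ X x) := fun x => (hinj x).some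
  let p : J → V := fun q => (ι (t q) ⟨q, rfl⟩ : X (t q))
  have hpX : ∀ q, p q ∈ X (t q) := fun q => (ι (t q) ⟨q, rfl⟩).2
  have hp : Function.Injective p := by
    have key : ∀ (x : I) (a b : t ⁻¹' {x}), ((ι x a : X x) : V) = ι x b → a = b :=
      fun x a b h => (ι x).injective (Subtype.ext h)
    intro a b hab
    have h1 : t a = t b := hX2 _ _ (p a) (hpX a) (by rw [hab]; exact hpX b)
    have h2 : ∀ (x : I) (ha : t a = x) (hb : t b = x),
        ((ι x ⟨a, ha⟩ : X x) : V) = ι x ⟨b, hb⟩ → a = b := by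
      intro x ha hb h
      exact congrArg Subtype.val (key x ⟨a, ha⟩ ⟨b, hb⟩ h)
    have h3 : ∀ (x : I) (ha : t a = x), ((ι x ⟨a, ha⟩ : X x) : V) = p a := by
      intro x ha
      subst ha
      rfl
    have h4 : ∀ (x : I) (hb : t b = x), ((ι x ⟨b, hb⟩ : X x) : V) = p b := by
      intro x hb
      subst hb
      rfl
    exact h2 (t a) rfl h1.symm (by rw [h3, h4]; exact hab)
  -- colours between blocks
  have hcol : ∀ q q' : J, t q < t q' → d (t q) (t q') = j → (colourGraph c j).Adj (p q) (p q') := by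
    intro q q' h1 h2
    refine ⟨fun h => ?_, ?_⟩
    · exact h1.ne (congrArg t (hp h))
    · rw [hX3 _ _ h1 _ (hpX q) _ (hpX q'), h2]
  have hpath : ∀ a b : J, a < b → ∃ w, a ≤ w ∧ w < b ∧ (colourGraph c j).Adj (p b) (p w) := by
    intro a b hab
    obtain ⟨ν, τ, e, h, rfl⟩ := hform b
    obtain ⟨ν', τ', e', h', rfl⟩ := hform a
    rw [hlt] at hab
    cases e with
    | true =>
      refine ⟨mk ν τ false h, ?_, ?_, ?_⟩
      · rw [hle]
        rcases hab with h1 | ⟨h1, h2 | ⟨h2, h3⟩⟩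
        · exact Or.inl h1
        · exact Or.inr ⟨h1, Or.inl h2⟩
        · refine Or.inr ⟨h1, Or.inr ⟨h2, ?_⟩⟩
          cases e' with
          | true => exact absurd h3 (lt_irrefl _)
          | false => exact le_rfl
      · rw [hlt]
        exact Or.inr ⟨rfl, Or.inr ⟨rfl, by decide⟩⟩
      · apply SimpleGraph.Adj.symm
        by_cases hτ : τ = k0
        · subst hτ
          apply hcol
          · rw [ht1, ht2]; exact hz3 ν
          · rw [ht1, ht2]; exact hz4 ν
        · apply hcol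
          · rw [ht1, ht3 _ _ _ hτ]; exact hz2 ν
          · rw [ht1, ht3 _ _ _ hτ]; exact hz5 ν
    | false =>
      by_cases hτ : τ = k0
      · subst hτ
        rcases hab with h1 | ⟨h1, h2 | ⟨h2, h3⟩⟩
        · refine ⟨mk ν' τ' true h', ?_, ?_, ?_⟩
          · rw [hle]
            exact Or.inr ⟨rfl, Or.inr ⟨rfl, by cases e' <;> decide⟩⟩
          · rw [hlt]
            exact Or.inl h1
          · apply hcol
            · rw [ht1, ht2]; exact hz3 ν'
            · rw [ht1, ht2]; exact hz4 ν'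
        · exact absurd h2 (not_lt.mpr (hk0 _))
        · cases e' with
          | true => exact absurd h3 (by decide)
          | false => exact absurd h3 (by decide)
      · rcases hab with h1 | ⟨h1, h2 | ⟨h2, h3⟩⟩
        · refine ⟨mk ν k0 true (hk0' ν), ?_, ?_, ?_⟩
          · rw [hle]
            exact Or.inl h1
          · rw [hlt]
            exact Or.inr ⟨rfl, Or.inl (lt_of_le_of_ne (hk0 τ) (fun h => hτ h.symm))⟩
          · apply hcol
            · rw [ht1, ht3 _ _ _ hτ]; exact hz2 ν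
            · rw [ht1, ht3 _ _ _ hτ]; exact hz5 ν
        · subst h1
          refine ⟨mk ν' τ' true h', ?_, ?_, ?_⟩
          · rw [hle]
            exact Or.inr ⟨rfl, Or.inr ⟨rfl, by cases e' <;> decide⟩⟩
          · rw [hlt]
            exact Or.inr ⟨rfl, Or.inl h2⟩
          · apply hcol
            · rw [ht1, ht3 _ _ _ hτ]; exact hz2 ν'
            · rw [ht1, ht3 _ _ _ hτ]; exact hz5 ν'
        · cases e' with
          | true => exact absurd h3 (by decide)
          | false => exact absurd h3 (by decide)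
  obtain ⟨P, hP1, hP2⟩ := exists_path (colourGraph c j) p hp hpath
  refine ⟨P, hP1, ?_⟩
  rw [hP2]
  apply le_antisymm
  · have h1 : #J ≤ #(I × K × Bool) := by
      refine mk_le_of_injective (f := fun q => ((ofLex q.1).1, (ofLex (ofLex q.1).2).1,
        (ofLex (ofLex q.1).2).2)) ?_
      intro a b hab
      simp only [Prod.mk.injEq] at hab
      apply Subtype.ext
      apply ofLex.injective
      refine Prod.ext hab.1 ?_
      apply ofLex.injective
      exact Prod.ext hab.2.1 hab.2.2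
    refine h1.trans ?_
    rw [mk_prod, mk_prod]
    simp only [lift_id, lift_uzero, mk_fintype, Fintype.card_bool, hK, hI]
    have h2 : κ * Cardinal.lift.{u} ((2 : ℕ) : Cardinal.{0}) ≤ κ := by
      refine (mul_le_mul' le_rfl ?_).trans (mul_eq_self hκ0).le
      simpa using (natCast_lt_aleph0 (n := 2)).le.trans hκ0
    exact (mul_le_mul' hμκ.le h2).trans (mul_eq_self hκ0).le
  · apply le_of_forall_lt
    intro θ hθ
    obtain ⟨x, hx⟩ := hl4 θ hθ
    refine hx.trans_le ?_
    rw [← hk x]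
    refine mk_le_of_injective (f := fun τ : Iio (k x) => mk x τ.1 true τ.2) ?_
    intro a b hab
    have h1 := congrArg (fun q : J => (ofLex (ofLex q.1).2).1) hab
    exact Subtype.ext h1

/-- The infinite cardinals `κ` such that every colouring of the pairs of a set of size `κ` with
countably many colours has a monochromatic path of size `κ`. The colouring is given by a function
on unordered pairs; its values on the diagonal play no role. -/
def PathCardinal (κ : Cardinal.{u}) : Prop :=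
  ℵ₀ ≤ κ ∧ ∀ V : Type u, #V = κ → ∀ c : Sym2 V → ℕ,
    ∃ (i : ℕ) (P : (colourGraph c i).Subgraph), IsTransfinitePath P.coe ∧ #P.verts = κ

theorem pathCardinal_of_strongLimit (κ : Cardinal.{u}) (hκ : κ.IsStrongLimit)
    (h2 : ℵ_ 2 ≤ κ.ord.cof) (hμ : κ.ord.cof < κ) : PathCardinal κ := by
  have hκ0 : ℵ₀ ≤ κ := hκ.aleph0_le
  have h12 : (ℵ₁ : Cardinal.{u}) < ℵ_ 2 := aleph_lt_aleph.mpr (by norm_num)
  have h1 : (ℵ₁ : Cardinal.{u}) < κ.ord.cof := h12.trans_le h2
  have hμ0 : ℵ₀ ≤ κ.ord.cof := aleph0_lt_aleph_one.le.trans h1.le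
  refine ⟨hκ0, fun V hV c => ?_⟩
  let I : Type u := κ.ord.cof.ord.ToType
  have hI : #I = κ.ord.cof := mk_ord_toType _
  have hI2 : ∀ x : I, #(Iio x) < κ.ord.cof := by
    intro x
    have h3 : Cardinal.ord #I = Ordinal.type (α := I) (· < ·) := by
      rw [hI, Ordinal.type_toType]
    have h4 := mk_Iio_lt x h3
    rwa [hI] at h4
  have hcof : Order.cof I = κ.ord.cof := by
    rw [Ordinal.cof_toType, Ordinal.cof_ord_cof]
  have hI3 : ∀ S : Set I, #S ≤ ℵ₁ → ∃ b, ∀ s ∈ S, s < b := by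
    intro S hS
    by_contra hcon
    push Not at hcon
    have h5 : IsCofinal S := fun b => hcon b
    have h6 := Order.cof_le h5
    rw [hcof] at h6
    exact absurd (h1.trans_le (h6.trans hS)) (lt_irrefl _)
  -- a cofinal sequence of cardinals
  have hf : ∃ f : I → Cardinal.{u}, (∀ x, f x < κ) ∧ ∀ θ < κ, ∃ x, θ ≤ f x := by
    obtain ⟨S, hS1, hS2⟩ := Order.exists_cof_eq κ.ord.ToType
    rw [Ordinal.cof_toType, ← hI] at hS2
    obtain ⟨e⟩ := Cardinal.eq.mp hS2
    refine ⟨fun x => #(Iio ((e.symm x : S) : κ.ord.ToType)), fun x => ?_, fun θ hθ => ?_⟩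
    · have h3 : Cardinal.ord #(κ.ord.ToType) = Ordinal.type (α := κ.ord.ToType) (· < ·) := by
        rw [mk_ord_toType, Ordinal.type_toType]
      have h4 := mk_Iio_lt ((e.symm x : S) : κ.ord.ToType) h3
      rwa [mk_ord_toType] at h4
    · obtain ⟨k, hk, -⟩ := exists_initial κ
      obtain ⟨y, hy, hky⟩ := hS1 (k ⟨θ, hθ⟩)
      refine ⟨e ⟨y, hy⟩, ?_⟩
      change θ ≤ #(Iio ((e.symm (e ⟨y, hy⟩) : S) : κ.ord.ToType))
      rw [Equiv.symm_apply_apply]
      calc θ = #(Iio (k ⟨θ, hθ⟩)) := (hk ⟨θ, hθ⟩).symm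
        _ ≤ #(Iio y) := mk_le_mk_of_subset (Iio_subset_Iio hky)
  obtain ⟨f, hf1, hf2⟩ := hf
  obtain ⟨l, X, d, hl1, hl2, hl3, hl4, hX1, hX2, hX3⟩ :=
    exists_canonical hκ hμ0 hμ I hI hI2 f hf1 hf2 V hV c
  obtain ⟨z, j, hz⟩ := exists_good hI3 d
  exact ⟨j, path_of_canonical hκ0 hμ0 hμ I hI V c l X d hl1 hl2 hl3 hl4 hX1 hX2 hX3 z j hz⟩

/-- Every singular strong limit cardinal of cofinality at least `ℵ₂` is a path cardinal; in
particular `ℶ_(ω₂)` is a path cardinal. -/
theorem result :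
    (∀ κ : Cardinal.{u}, κ.IsStrongLimit → ℵ_ 2 ≤ κ.ord.cof → κ.ord.cof < κ → PathCardinal κ) ∧
      PathCardinal (ℶ_ (Ordinal.omega 2) : Cardinal.{u}) := by
  refine ⟨pathCardinal_of_strongLimit, ?_⟩
  have h12 : (2 : Ordinal.{u}) = 1 + 1 := by norm_num
  have hlim : Order.IsSuccLimit (Ordinal.omega 2 : Ordinal.{u}) := by
    rw [← ord_aleph]
    exact isSuccLimit_ord (aleph0_le_aleph 2)
  have hcof : (ℶ_ (Ordinal.omega 2) : Cardinal.{u}).ord.cof = ℵ_ 2 := by
    have h1 : Order.IsNormal (fun o : Ordinal.{u} => (ℶ_ o).ord) := isNormal_ord.comp isNormal_beth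
    have h2 := Ordinal.cof_map_of_isNormal h1 hlim
    rw [h2, h12]
    exact cof_omega_add_one 1
  apply pathCardinal_of_strongLimit
  · exact isStrongLimit_beth.mpr hlim.isSuccPrelimit
  · rw [hcof]
  · rw [hcof]
    refine (aleph_le_beth 2).trans_lt (beth_lt_beth.mpr ?_)
    have h3 : (2 : Ordinal.{u}) < Ordinal.omega 2 :=
      (Ordinal.natCast_lt_omega0 2).trans_le (Ordinal.omega0_le_omega 2)
    exact h3

end Pool.Agent.Results.MP_ebc4cb_lc.StrongLimit
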